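import Pool.Agent.L7h1.AS.Stm2

set_option autoImplicit false

/-!
# Project AS: one difference, and a positive proportion of the differences, of the right order
-/

namespace Pool.Agent.L7h60.AS

open Finset Filter
open Pool.Agent.L7h1.AS

theorem ps_mono (A : Finset ℕ) (f g : ℕ → ℝ)
    (h : ∀ a ∈ A, ∀ b ∈ A, a < b → f (b - a) ≤ g (b - a)) : pairSum A f ≤ pairSum A g := by
  unfold pairSum
  refine Finset.sum_le_sum fun a ha => Finset.sum_le_sum fun b hb => ?_
  rw [Finset.mem_filter] at hb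
  exact h a ha b hb.1 hb.2

theorem ps_add (A : Finset ℕ) (f g : ℕ → ℝ) :
    pairSum A (fun d => f d + g d) = pairSum A f + pairSum A g := by
  unfold pairSum
  simp only [Finset.sum_add_distrib]

theorem ps_mul (A : Finset ℕ) (c : ℝ) (f : ℕ → ℝ) :
    pairSum A (fun d => c * f d) = c * pairSum A f := by
  unfold pairSum
  simp only [Finset.mul_sum]

theorem ps_one (A : Finset ℕ) : pairSum A (fun _ => 1) ≤ (A.card : ℝ) ^ 2 := by
  unfold pairSum
  calc ∑ a ∈ A, ∑ b ∈ A.filter (fun b => a < b), (1 : ℝ) ≤ ∑ a ∈ A, (A.card : ℝ) := by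
        refine Finset.sum_le_sum fun a _ => ?_
        rw [Finset.sum_const, nsmul_eq_mul, mul_one]
        exact_mod_cast Finset.card_filter_le _ _
    _ = (A.card : ℝ) ^ 2 := by
        rw [Finset.sum_const, nsmul_eq_mul, sq]

theorem S_lb (hC : 0 < C2) (d : ℕ) (hd : Even d) : 2 * C2 ≤ S d := by
  unfold S
  rw [if_pos hd]
  have h1 : (1 : ℝ) ≤ ∏ p ∈ d.primeFactors.filter (fun p : ℕ => 2 < p),
      (((p : ℝ) - 1) / ((p : ℝ) - 2)) := by
    calc (1 : ℝ) = ∏ p ∈ d.primeFactors.filter (fun p : ℕ => 2 < p), (1 : ℝ) := by simp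
      _ ≤ _ := by
        refine Finset.prod_le_prod (fun _ _ => zero_le_one) fun p hp => ?_
        have h2 : (2 : ℝ) < p := by exact_mod_cast (Finset.mem_filter.1 hp).2
        rw [le_div_iff₀ (by linarith)]
        linarith
  nlinarith

theorem S_odd (d : ℕ) (hd : ¬ Even d) : S d = 0 := by unfold S; rw [if_neg hd]

theorem S_nn (hC : 0 < C2) (d : ℕ) : 0 ≤ S d := by
  by_cases hd : Even d
  · have := S_lb hC d hd
    linarith
  · rw [S_odd d hd]

theorem pi2_odd (N d : ℕ) (hd : ¬ Even d) : pi2 N d ≤ 1 := by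
  unfold pi2
  refine (Finset.card_le_card (t := {d + 2}) ?_).trans (by simp)
  intro p hp
  rw [Finset.mem_filter] at hp
  obtain ⟨_, hp1, hp2⟩ := hp
  rw [Finset.mem_singleton]
  have h2 := hp2.two_le
  have h1 := hp1.two_le
  rcases hp2.eq_two_or_odd' with h | h
  · omega
  · obtain ⟨k, hk⟩ := h
    rcases hp1.eq_two_or_odd' with h' | h'
    · omega
    · obtain ⟨m, hm⟩ := h'
      exact absurd ⟨m - k, by omega⟩ hd

theorem even_pairs (A : Finset ℕ) (hA : 4 ≤ A.card) :
    (A.card : ℝ) ^ 2 ≤ 8 * pairSum A (fun d => if Even d then 1 else 0) := by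
  set e : ℕ → ℝ := fun a => (-1) ^ a with he
  have hee : ∀ a, e a * e a = 1 := fun a => by
    simp only [he]
    rw [← mul_pow]
    norm_num
  set f : ℕ → ℕ → ℝ := fun a b => (1 + e a * e b) / 2 with hf
  have hsymm : ∀ a b, f a b = f b a := fun a b => by simp only [hf]; rw [mul_comm]
  have hdiag : ∀ a, f a a = 1 := fun a => by simp only [hf]; rw [hee]; norm_num
  have h1 : ∀ a b, a < b → f a b = if Even (b - a) then 1 else 0 := by
    intro a b hab
    have h2 : e b = e a * e (b - a) := by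
      simp only [he]
      rw [← pow_add]
      congr 1
      omega
    have h3 : e a * e b = e (b - a) := by
      rw [h2, ← mul_assoc, hee, one_mul]
    simp only [hf]
    rw [h3]
    simp only [he]
    by_cases h4 : Even (b - a)
    · rw [h4.neg_one_pow, if_pos h4]; norm_num
    · rw [(Nat.not_even_iff_odd.1 h4).neg_one_pow, if_neg h4]; norm_num
  have hT1 : ∑ a ∈ A, ∑ b ∈ A, f a b = ((A.card : ℝ) ^ 2 + (∑ a ∈ A, e a) ^ 2) / 2 := by
    simp only [hf, ← Finset.sum_div, Finset.sum_add_distrib]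
    rw [sq (∑ a ∈ A, e a), Finset.sum_mul_sum]
    simp only [Finset.sum_const, nsmul_eq_mul, mul_one]
    ring
  have hT2 : ∑ a ∈ A, ∑ b ∈ A, f a b =
      A.card + 2 * pairSum A (fun d => if Even d then 1 else 0) := by
    have h2 : ∀ a b, f a b = (if a < b then f a b else 0) + (if b < a then f a b else 0) +
        (if b = a then f a b else 0) := by
      intro a b
      rcases lt_trichotomy a b with h | h | h
      · rw [if_pos h, if_neg (not_lt.2 h.le), if_neg (by omega)]; ring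
      · rw [if_neg (by omega), if_neg (by omega), if_pos h.symm]; ring
      · rw [if_neg (by omega), if_pos h, if_neg (by omega)]; ring
    have h3 : ∑ a ∈ A, ∑ b ∈ A, f a b = ∑ a ∈ A, ∑ b ∈ A, (if a < b then f a b else 0) +
        ∑ a ∈ A, ∑ b ∈ A, (if b < a then f a b else 0) +
        ∑ a ∈ A, ∑ b ∈ A, (if b = a then f a b else 0) := by
      rw [← Finset.sum_add_distrib, ← Finset.sum_add_distrib]
      refine Finset.sum_congr rfl fun a _ => ?_
      rw [← Finset.sum_add_distrib, ← Finset.sum_add_distrib]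
      exact Finset.sum_congr rfl fun b _ => h2 a b
    have h4 : ∑ a ∈ A, ∑ b ∈ A, (if b < a then f a b else 0) =
        ∑ a ∈ A, ∑ b ∈ A, (if a < b then f a b else 0) := by
      rw [Finset.sum_comm]
      refine Finset.sum_congr rfl fun a _ => Finset.sum_congr rfl fun b _ => ?_
      rw [hsymm]
    have h5 : ∑ a ∈ A, ∑ b ∈ A, (if b = a then f a b else 0) = A.card := by
      have : ∀ a ∈ A, ∑ b ∈ A, (if b = a then f a b else 0) = 1 := by
        intro a ha
        rw [Finset.sum_ite_eq' A a, if_pos ha, hdiag]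
      rw [Finset.sum_congr rfl this]
      simp
    have h6 : ∑ a ∈ A, ∑ b ∈ A, (if a < b then f a b else 0) =
        pairSum A (fun d => if Even d then 1 else 0) := by
      unfold pairSum
      refine Finset.sum_congr rfl fun a _ => ?_
      rw [← Finset.sum_filter]
      refine Finset.sum_congr rfl fun b hb => ?_
      exact h1 a b (Finset.mem_filter.1 hb).2
    rw [h3, h4, h5, h6]
    ring
  have h7 : (4 : ℝ) ≤ A.card := by exact_mod_cast hA
  have h8 := sq_nonneg (∑ a ∈ A, e a)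
  nlinarith

theorem ps_S_lb (hC : 0 < C2) (A : Finset ℕ) (hA : 4 ≤ A.card) :
    C2 / 4 * (A.card : ℝ) ^ 2 ≤ pairSum A S := by
  have h1 := even_pairs A hA
  have h2 : pairSum A (fun d => 2 * C2 * (if Even d then 1 else 0)) ≤ pairSum A S := by
    apply ps_mono
    intro a _ b _ _
    by_cases h : Even (b - a)
    · rw [if_pos h, mul_one]; exact S_lb hC _ h
    · rw [if_neg h, mul_zero]; exact S_nn hC _
  rw [ps_mul] at h2
  nlinarith

theorem small (δ : ℝ) (hδ : 0 < δ) : ∃ X : ℝ, ∀ x : ℝ, X ≤ x → Real.log x ^ 2 / x ≤ δ := by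
  have h1 := (Real.isLittleO_pow_log_id_atTop (n := 2)).def hδ
  obtain ⟨X, hX⟩ := eventually_atTop.1 (h1.and (eventually_gt_atTop 0))
  refine ⟨X, fun x hx => ?_⟩
  obtain ⟨h2, h3⟩ := hX x hx
  rw [div_le_iff₀ h3]
  have h4 : ‖Real.log x ^ 2‖ = Real.log x ^ 2 := by
    rw [Real.norm_eq_abs, abs_of_nonneg (sq_nonneg _)]
  have h5 : ‖id x‖ = x := by
    rw [id, Real.norm_eq_abs, abs_of_pos h3]
  rw [h4, h5] at h2
  exact h2

theorem s_EXI (hS : S_SETS) (hC : S_C2B) : S_EXI := by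
  intro C ε hε
  obtain ⟨X1, hX1⟩ := hS C (ε / 2) (by positivity)
  have hC2 := hC.1
  obtain ⟨X2, hX2⟩ := small (ε * C2 / 16) (by positivity)
  refine ⟨max (max X1 X2) (Real.exp 4), fun x hx L hL A hA1 hA2 => ?_⟩
  have hx1 : X1 ≤ x := (le_max_left _ _).trans ((le_max_left _ _).trans hx)
  have hx2 : X2 ≤ x := (le_max_right _ _).trans ((le_max_left _ _).trans hx)
  have hx3 : Real.exp 4 ≤ x := (le_max_right _ _).trans hx
  have hx0 : 0 < x := (Real.exp_pos 4).trans_le hx3
  have hlog : 4 ≤ Real.log x := (Real.le_log_iff_exp_le hx0).2 hx3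
  have hcard : 4 ≤ A.card := by
    have : (4 : ℝ) ≤ A.card := by nlinarith
    exact_mod_cast this
  by_contra hcon
  push Not at hcon
  have h1 := hX1 x hx1 L (by linarith) A hA1 hA2
  have h2 := hX2 x hx2
  have h3 := ps_S_lb hC2 A hcard
  set κ := 1 - 1 / L - ε with hκ
  have h4 : pairSum A (fun d => (pi2 ⌊x⌋₊ d : ℝ)) ≤
      pairSum A (fun d => κ * (x / Real.log x ^ 2) * S d + 1) := by
    apply ps_mono
    intro a ha b hb hab
    by_cases h : Even (b - a)
    · have h5 := hcon a ha b hb hab h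
      have h6 : κ * (S (b - a) * x / Real.log x ^ 2) = κ * (x / Real.log x ^ 2) * S (b - a) := by
        ring
      rw [h6] at h5
      linarith
    · rw [S_odd _ h, mul_zero, zero_add]
      exact_mod_cast pi2_odd _ _ h
  rw [ps_add, ps_mul] at h4
  have h5 := ps_one A
  have hl2 : 0 < Real.log x ^ 2 := by positivity
  have h6 : Real.log x ^ 2 / x * pairSum A (fun d => (pi2 ⌊x⌋₊ d : ℝ)) ≤
      κ * pairSum A S + Real.log x ^ 2 / x * (A.card : ℝ) ^ 2 := by
    have h7 : 0 ≤ Real.log x ^ 2 / x := by positivity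
    calc Real.log x ^ 2 / x * pairSum A (fun d => (pi2 ⌊x⌋₊ d : ℝ)) ≤
        Real.log x ^ 2 / x * (κ * (x / Real.log x ^ 2) * pairSum A S + (A.card : ℝ) ^ 2) :=
          mul_le_mul_of_nonneg_left (h4.trans (by linarith)) h7
      _ = κ * pairSum A S + Real.log x ^ 2 / x * (A.card : ℝ) ^ 2 := by
          field_simp
  have h8 : (ε / 2) * pairSum A S ≤ Real.log x ^ 2 / x * (A.card : ℝ) ^ 2 := by
    have : (1 - 1 / L - ε / 2) * pairSum A S = κ * pairSum A S + (ε / 2) * pairSum A S := by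
      rw [hκ]; ring
    linarith
  have h9 : (0 : ℝ) < (A.card : ℝ) ^ 2 := by
    have : (4 : ℝ) ≤ A.card := by exact_mod_cast hcard
    positivity
  have h10 : (ε / 2) * (C2 / 4 * (A.card : ℝ) ^ 2) ≤ ε * C2 / 16 * (A.card : ℝ) ^ 2 :=
    (mul_le_mul_of_nonneg_left h3 (by positivity)).trans
      (h8.trans (mul_le_mul_of_nonneg_right h2 h9.le))
  have h11 : 0 < ε * C2 * (A.card : ℝ) ^ 2 := by positivity
  nlinarith

/-- comparison of `⌊x⌋` and `x` -/
theorem floor_cmp (C : ℕ) (ε : ℝ) (hε : 0 < ε) (X₀ : ℕ) : ∃ X : ℝ, ∀ x : ℝ, X ≤ x →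
    X₀ ≤ ⌊x⌋₊ ∧ (⌊x⌋₊ : ℝ) / Real.log ⌊x⌋₊ ^ 2 ≤ (1 + ε) * (x / Real.log x ^ 2) ∧
    Real.log x ^ C ≤ Real.log ⌊x⌋₊ ^ (C + 1) := by
  set M : ℝ := max (2 ^ C) (max 1 (3 / ε)) with hM
  refine ⟨max (X₀ + 1) (Real.exp M + 1), fun x hx => ?_⟩
  have hx1 : (X₀ : ℝ) + 1 ≤ x := (le_max_left _ _).trans hx
  have hx2 : Real.exp M + 1 ≤ x := (le_max_right _ _).trans hx
  have hx0 : 0 < x := by have := Real.exp_pos M; linarith
  have hN1 : x < (⌊x⌋₊ : ℝ) + 1 := Nat.lt_floor_add_one x
  have hN2 : (⌊x⌋₊ : ℝ) ≤ x := Nat.floor_le hx0.le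
  set N := ⌊x⌋₊ with hN
  have hexpN : Real.exp M ≤ N := by linarith
  have hN0 : (0 : ℝ) < N := (Real.exp_pos M).trans_le hexpN
  have hlogN : M ≤ Real.log N := (Real.le_log_iff_exp_le hN0).2 hexpN
  have hM1 : 1 ≤ M := (le_max_left _ _).trans (le_max_right _ _)
  have hM2 : 3 / ε ≤ M := (le_max_right _ _).trans (le_max_right _ _)
  have hM3 : 2 ^ C ≤ M := le_max_left _ _
  have hN3 : (1 : ℝ) ≤ N := by
    have := Real.one_le_exp (x := M) (by linarith)
    linarith
  have hlx : Real.log x ≤ Real.log N + 1 := by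
    have h1 : x ≤ 2 * N := by linarith
    have h2 : Real.log x ≤ Real.log (2 * N) := Real.log_le_log hx0 h1
    rw [Real.log_mul (by norm_num) hN0.ne'] at h2
    have := Real.log_two_lt_d9
    linarith
  have hlx2 : Real.log N ≤ Real.log x := Real.log_le_log hN0 hN2
  refine ⟨?_, ?_, ?_⟩
  · apply Nat.le_floor
    linarith
  · have hl1 : 0 < Real.log N := by linarith
    have hl2 : 0 < Real.log x := by linarith
    have h3 : Real.log x ^ 2 ≤ (1 + ε) * Real.log N ^ 2 := by
      have h4 : 3 ≤ ε * Real.log N := by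
        have := hM2.trans hlogN
        rw [div_le_iff₀ hε] at this
        linarith
      have h5 : Real.log x ^ 2 ≤ (Real.log N + 1) ^ 2 := by
        apply pow_le_pow_left₀ hl2.le hlx
      nlinarith
    rw [div_le_iff₀ (by positivity)]
    have h6 : (1 + ε) * (x / Real.log x ^ 2) * Real.log N ^ 2 =
        x * (((1 + ε) * Real.log N ^ 2) / Real.log x ^ 2) := by ring
    rw [h6]
    have h7 : 1 ≤ ((1 + ε) * Real.log N ^ 2) / Real.log x ^ 2 := by
      rw [le_div_iff₀ (by positivity), one_mul]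
      exact h3
    nlinarith
  · have h8 : Real.log x ≤ 2 * Real.log N := by linarith
    calc Real.log x ^ C ≤ (2 * Real.log N) ^ C :=
          pow_le_pow_left₀ (by linarith) h8 C
      _ = 2 ^ C * Real.log N ^ C := by rw [mul_pow]
      _ ≤ Real.log N * Real.log N ^ C := by
          apply mul_le_mul_of_nonneg_right (hM3.trans hlogN)
          have : 0 ≤ Real.log N := by linarith
          positivity
      _ = Real.log N ^ (C + 1) := by rw [pow_succ']

theorem K_nn (hC : 0 < C2) (K : ℝ) (hU : S_UPB K) : 0 ≤ K := by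
  obtain ⟨X₀, hX⟩ := hU 1
  obtain ⟨X, hX'⟩ := floor_cmp 0 1 one_pos X₀
  have h0 := hX' (max X (Real.exp 3)) (le_max_left _ _)
  set N := max X₀ ⌈Real.exp 3⌉₊ with hN
  have hN1 : Real.exp 3 ≤ N := (Nat.le_ceil _).trans (by exact_mod_cast le_max_right _ _)
  have hN0 : (0 : ℝ) < N := (Real.exp_pos 3).trans_le hN1
  have hlog : 3 ≤ Real.log N := (Real.le_log_iff_exp_le hN0).2 hN1
  have h1 := hX N (le_max_left _ _) 2 (by norm_num) (by decide) (by
    rw [pow_one]; push_cast; linarith)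
  by_contra hK
  push Not at hK
  have h2 : 0 < S 2 := lt_of_lt_of_le (by positivity) (S_lb hC 2 (by decide))
  have h3 : 0 < S 2 * N / Real.log N ^ 2 := by positivity
  have h4 : (0 : ℝ) ≤ pi2 N 2 := Nat.cast_nonneg _
  nlinarith

theorem s_PROP (hS : S_SETS) (hC : S_C2B) (K : ℝ) (hU : S_UPB K) : S_PROP K := by
  intro C ε hε
  have hC2 := hC.1
  have hK := K_nn hC2 K hU
  obtain ⟨X1, hX1⟩ := hS C (ε / 3) (by positivity)
  obtain ⟨X2, hX2⟩ := small (ε * C2 / 12) (by positivity)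
  obtain ⟨X₀, hX₀⟩ := hU (C + 1)
  set δ : ℝ := ε / (3 * (K + 1)) with hδ
  have hδ0 : 0 < δ := by positivity
  have hKδ : K * δ ≤ ε / 3 := by
    rw [hδ]
    have : K * (ε / (3 * (K + 1))) = ε / 3 * (K / (K + 1)) := by field_simp
    rw [this]
    have h2 : K / (K + 1) ≤ 1 := by
      rw [div_le_one (by linarith)]; linarith
    nlinarith
  obtain ⟨X3, hX3⟩ := floor_cmp C δ hδ0 X₀
  refine ⟨max (max X1 X2) (max X3 (Real.exp 4)), fun x hx L hL κ hκ A hA1 hA2 => ?_⟩
  have hx1 : X1 ≤ x := (le_max_left _ _).trans ((le_max_left _ _).trans hx)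
  have hx2 : X2 ≤ x := (le_max_right _ _).trans ((le_max_left _ _).trans hx)
  have hx4 : X3 ≤ x := (le_max_left _ _).trans ((le_max_right _ _).trans hx)
  have hx3 : Real.exp 4 ≤ x := (le_max_right _ _).trans ((le_max_right _ _).trans hx)
  have hx0 : 0 < x := (Real.exp_pos 4).trans_le hx3
  have hlog : 4 ≤ Real.log x := (Real.le_log_iff_exp_le hx0).2 hx3
  have hcard : 4 ≤ A.card := by
    have : (4 : ℝ) ≤ A.card := by nlinarith
    exact_mod_cast this
  have h1 := hX1 x hx1 L (by linarith) A hA1 hA2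
  have h2 := hX2 x hx2
  have h3 := ps_S_lb hC2 A hcard
  obtain ⟨f1, f2, f3⟩ := hX3 x hx4
  have hl2 : 0 < Real.log x ^ 2 := by positivity
  set G : ℕ → ℝ := fun d => if κ * (S d * x / Real.log x ^ 2) ≤ (pi2 ⌊x⌋₊ d : ℝ) then S d else 0
    with hG
  have hGnn : ∀ d, 0 ≤ G d := fun d => by
    simp only [hG]; split_ifs
    · exact S_nn hC2 d
    · exact le_refl 0
  have hGle : ∀ d, G d ≤ S d := fun d => by
    simp only [hG]; split_ifs
    · exact le_refl _
    · exact S_nn hC2 d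
  have hxl : 0 < x / Real.log x ^ 2 := by positivity
  have h4 : pairSum A (fun d => (pi2 ⌊x⌋₊ d : ℝ)) ≤
      pairSum A (fun d => (x / Real.log x ^ 2) * ((K * (1 + δ)) * G d + κ * S d) + 1) := by
    apply ps_mono
    intro a ha b hb hab
    have hS0 := S_nn hC2 (b - a)
    have hG0 := hGnn (b - a)
    have hp1 : 0 ≤ (x / Real.log x ^ 2) * ((K * (1 + δ)) * G (b - a)) := by positivity
    have hp2 : 0 ≤ (x / Real.log x ^ 2) * (κ * S (b - a)) := by positivity
    by_cases h : Even (b - a)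
    · by_cases hgood : κ * (S (b - a) * x / Real.log x ^ 2) ≤ (pi2 ⌊x⌋₊ (b - a) : ℝ)
      · have hGe : G (b - a) = S (b - a) := by simp only [hG]; rw [if_pos hgood]
        have hd : ((b - a : ℕ) : ℝ) ≤ Real.log ⌊x⌋₊ ^ (C + 1) := by
          refine le_trans ?_ f3
          refine le_trans ?_ (hA1 b hb).2
          exact_mod_cast Nat.sub_le b a
        have h5 := hX₀ ⌊x⌋₊ f1 (b - a) (by omega) h hd
        have h6 : K * (S (b - a) * (⌊x⌋₊ : ℝ) / Real.log ⌊x⌋₊ ^ 2) =
            (K * S (b - a)) * ((⌊x⌋₊ : ℝ) / Real.log ⌊x⌋₊ ^ 2) := by ring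
        rw [h6] at h5
        have h7 : (K * S (b - a)) * ((⌊x⌋₊ : ℝ) / Real.log ⌊x⌋₊ ^ 2) ≤
            (K * S (b - a)) * ((1 + δ) * (x / Real.log x ^ 2)) :=
          mul_le_mul_of_nonneg_left f2 (by positivity)
        have h8 : (K * S (b - a)) * ((1 + δ) * (x / Real.log x ^ 2)) =
            (x / Real.log x ^ 2) * ((K * (1 + δ)) * G (b - a)) := by rw [hGe]; ring
        rw [h8] at h7
        have h9 : (x / Real.log x ^ 2) * ((K * (1 + δ)) * G (b - a) + κ * S (b - a)) =
          (x / Real.log x ^ 2) * ((K * (1 + δ)) * G (b - a)) +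
            (x / Real.log x ^ 2) * (κ * S (b - a)) := by ring
        show (pi2 ⌊x⌋₊ (b - a) : ℝ) ≤
          (x / Real.log x ^ 2) * ((K * (1 + δ)) * G (b - a) + κ * S (b - a)) + 1
        rw [h9]
        linarith
      · have h5 := not_le.1 hgood
        have h6 : κ * (S (b - a) * x / Real.log x ^ 2) =
            (x / Real.log x ^ 2) * (κ * S (b - a)) := by ring
        rw [h6] at h5
        have h9 : (x / Real.log x ^ 2) * ((K * (1 + δ)) * G (b - a) + κ * S (b - a)) =
          (x / Real.log x ^ 2) * ((K * (1 + δ)) * G (b - a)) +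
            (x / Real.log x ^ 2) * (κ * S (b - a)) := by ring
        show (pi2 ⌊x⌋₊ (b - a) : ℝ) ≤
          (x / Real.log x ^ 2) * ((K * (1 + δ)) * G (b - a) + κ * S (b - a)) + 1
        rw [h9]
        linarith
    · have h5 : (pi2 ⌊x⌋₊ (b - a) : ℝ) ≤ 1 := by exact_mod_cast pi2_odd _ _ h
      have h9 : (x / Real.log x ^ 2) * ((K * (1 + δ)) * G (b - a) + κ * S (b - a)) =
          (x / Real.log x ^ 2) * ((K * (1 + δ)) * G (b - a)) +
            (x / Real.log x ^ 2) * (κ * S (b - a)) := by ring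
      show (pi2 ⌊x⌋₊ (b - a) : ℝ) ≤
        (x / Real.log x ^ 2) * ((K * (1 + δ)) * G (b - a) + κ * S (b - a)) + 1
      rw [h9]
      linarith
  rw [ps_add, ps_mul, ps_add, ps_mul, ps_mul] at h4
  have h5 := ps_one A
  have hGP : pairSum A G ≤ pairSum A S := ps_mono A _ _ (fun a _ b _ _ => hGle _)
  have hGP0 : 0 ≤ pairSum A G := by
    have := ps_mono A (fun _ => 0) G (fun a _ b _ _ => hGnn _)
    unfold pairSum at this ⊢
    simpa using this
  have h6 : Real.log x ^ 2 / x * pairSum A (fun d => (pi2 ⌊x⌋₊ d : ℝ)) ≤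
      (K * (1 + δ) * pairSum A G + κ * pairSum A S) + Real.log x ^ 2 / x * (A.card : ℝ) ^ 2 := by
    have h7 : 0 ≤ Real.log x ^ 2 / x := by positivity
    calc Real.log x ^ 2 / x * pairSum A (fun d => (pi2 ⌊x⌋₊ d : ℝ)) ≤
        Real.log x ^ 2 / x * ((x / Real.log x ^ 2) *
          (K * (1 + δ) * pairSum A G + κ * pairSum A S) + (A.card : ℝ) ^ 2) :=
          mul_le_mul_of_nonneg_left (h4.trans (by linarith)) h7
      _ = (K * (1 + δ) * pairSum A G + κ * pairSum A S) +
            Real.log x ^ 2 / x * (A.card : ℝ) ^ 2 := by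
          field_simp
  have h9 : Real.log x ^ 2 / x * (A.card : ℝ) ^ 2 ≤ ε / 3 * pairSum A S := by
    have h10 : Real.log x ^ 2 / x * (A.card : ℝ) ^ 2 ≤ ε * C2 / 12 * (A.card : ℝ) ^ 2 :=
      mul_le_mul_of_nonneg_right h2 (by positivity)
    have h11 : ε / 3 * (C2 / 4 * (A.card : ℝ) ^ 2) ≤ ε / 3 * pairSum A S :=
      mul_le_mul_of_nonneg_left h3 (by positivity)
    nlinarith
  have h12 : K * δ * pairSum A G ≤ ε / 3 * pairSum A S :=
    (mul_le_mul_of_nonneg_right hKδ hGP0).trans (mul_le_mul_of_nonneg_left hGP (by positivity))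
  have h13 : (1 - 1 / L - κ - ε) * pairSum A S =
      (1 - 1 / L - ε / 3) * pairSum A S - κ * pairSum A S - ε / 3 * pairSum A S -
        ε / 3 * pairSum A S := by ring
  have h14 : K * (1 + δ) * pairSum A G = K * pairSum A G + K * δ * pairSum A G := by ring
  rw [h13]
  linarith

end Pool.Agent.L7h60.AS
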